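import Pool.Agent.H513R2.RD.Defs

namespace RD
open Finset RC14

lemma ev_comp {G : Type*} [Group G] {k k' : ℕ} (x : Fin k → G) (ι : Fin k' → Fin k)
    (w : List (Fin k' × Bool)) : ev (x ∘ ι) w = ev x (w.map fun p => (ι p.1, p.2)) := by
  simp [ev, List.map_map, Function.comp_def]

lemma WL_comp {G : Type*} [Group G] {k k' : ℕ} {x : Fin k → G} (ι : Fin k' → Fin k)
    {L : ℕ} {g : G} (h : WL (x ∘ ι) L g) : WL x L g := by
  obtain ⟨w, hw, e⟩ := h
  exact ⟨w.map fun p => (ι p.1, p.2), by simpa using hw, by rw [← ev_comp, e]⟩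

lemma Mixed_comp {n k k' m ℓ : ℕ} {x : Fin k → Alt n} (ι : Fin k' → Fin k)
    (h : Mixed (x ∘ ι) m ℓ) : Mixed x m ℓ := by
  obtain ⟨N, g, hN, hw, hr⟩ := h
  exact ⟨N, g, hN, fun i => WL_comp ι (hw i), hr⟩

/-- counting through an injection of coordinates -/
theorem card_comp {I K A : Type*} [Fintype I] [Fintype K] [Fintype A] (ι : I → K)
    (hι : Function.Injective ι) (Q : (I → A) → Prop) :
    Nat.card {x : K → A // Q (x ∘ ι)} * Fintype.card A ^ Fintype.card I =
      Nat.card {z : I → A // Q z} * Fintype.card A ^ Fintype.card K := by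
  classical
  let e1 : (K → A) ≃ ({k // k ∈ Set.range ι} → A) × ({k // k ∉ Set.range ι} → A) :=
    Equiv.piEquivPiSubtypeProd (fun k => k ∈ Set.range ι) fun _ => A
  let e2 : (I → A) ≃ ({k // k ∈ Set.range ι} → A) :=
    (Equiv.ofInjective ι hι).arrowCongr (Equiv.refl A)
  let e : {x : K → A // Q (x ∘ ι)} ≃ {z : I → A // Q z} × ({k // k ∉ Set.range ι} → A) :=
    { toFun := fun x => (⟨x.1 ∘ ι, x.2⟩, (e1 x.1).2)
      invFun := fun p => ⟨e1.symm (e2 p.1.1, p.2), by
        have : e1.symm (e2 p.1.1, p.2) ∘ ι = p.1.1 := by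
          funext i
          simp only [Function.comp_apply, e1, Equiv.piEquivPiSubtypeProd_symm_apply,
            Set.mem_range_self, dif_pos, e2, Equiv.arrowCongr_apply, Equiv.coe_refl, id]
          exact congrArg p.1.1 ((Equiv.ofInjective ι hι).symm_apply_apply i)
        rw [this]
        exact p.1.2⟩
      left_inv := fun x => by
        apply Subtype.ext
        funext k
        simp only [e1, Equiv.piEquivPiSubtypeProd_symm_apply, Equiv.piEquivPiSubtypeProd_apply]
        by_cases hk : k ∈ Set.range ι
        · rw [dif_pos hk]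
          obtain ⟨i, rfl⟩ := hk
          simp only [e2, Equiv.arrowCongr_apply, Equiv.coe_refl, Function.comp_apply, id]
          exact congrArg (fun j => x.1 (ι j)) ((Equiv.ofInjective ι hι).symm_apply_apply i)
        · rw [dif_neg hk]
      right_inv := fun p => by
        apply Prod.ext
        · apply Subtype.ext
          funext i
          simp only [Function.comp_apply, e1, Equiv.piEquivPiSubtypeProd_symm_apply,
            Set.mem_range_self, dif_pos, e2, Equiv.arrowCongr_apply, Equiv.coe_refl, id]
          exact congrArg p.1.1 ((Equiv.ofInjective ι hι).symm_apply_apply i)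
        · change (e1 (e1.symm (e2 p.1.1, p.2))).2 = p.2
          rw [Equiv.apply_symm_apply] }
  have hcardR : Fintype.card {k // k ∉ Set.range ι} + Fintype.card I = Fintype.card K := by
    have h1 : Fintype.card {k // k ∈ Set.range ι} = Fintype.card I :=
      (Fintype.card_congr (Equiv.ofInjective ι hι)).symm
    have h2 := Fintype.card_subtype_compl (fun k => k ∈ Set.range ι)
    have h3 := Fintype.card_subtype_le (fun k => k ∈ Set.range ι)
    omega
  rw [Nat.card_congr e, Nat.card_prod, Nat.card_eq_fintype_card (α := _ → A), Fintype.card_fun,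
    mul_assoc, ← pow_add, hcardR]

end RD
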