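import Pool.Agent.H14R2.RC.R1

namespace RD
open Finset RC14 Filter Topology

noncomputable section

/-- length of the mixing walk -/
def ell (ε : ℝ) (m n : ℕ) : ℕ := ⌈2 / ε * (m * Real.log n + 1)⌉₊

/-- number of commutator steps -/
def TT (n : ℕ) : ℕ := Nat.log 2 (Nat.log 2 n) + 1

lemma TT_spec (n : ℕ) : n < 2 ^ (2 ^ TT n) := by
  have h1 : Nat.log 2 n < 2 ^ TT n := Nat.lt_pow_succ_log_self (by norm_num) _
  calc n < 2 ^ (Nat.log 2 n + 1) := Nat.lt_pow_succ_log_self (by norm_num) _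
    _ ≤ 2 ^ (2 ^ TT n) := Nat.pow_le_pow_right (by norm_num) h1

lemma four_TT (n : ℕ) (hn : 2 ≤ n) : ((4 : ℕ) ^ TT n : ℝ) ≤ 16 * Real.log n ^ 2 := by
  have hl : Nat.log 2 n ≠ 0 := (Nat.log_pos (by norm_num) hn).ne'
  have h1 : 2 ^ Nat.log 2 (Nat.log 2 n) ≤ Nat.log 2 n := Nat.pow_log_le_self 2 hl
  have h2 : (Nat.log 2 n : ℝ) ≤ 2 * Real.log n := by
    have h3 : (2 : ℝ) ^ Nat.log 2 n ≤ n := by exact_mod_cast Nat.pow_log_le_self 2 (by omega)
    have h4 := Real.log_le_log (by positivity) h3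
    rw [Real.log_pow] at h4
    have h5 : (1 / 2 : ℝ) ≤ Real.log 2 := by have := Real.log_two_gt_d9; linarith
    have h6 : (0 : ℝ) ≤ (Nat.log 2 n : ℝ) := Nat.cast_nonneg _
    nlinarith
  have h7 : ((2 : ℝ) ^ TT n) ≤ 4 * Real.log n := by
    have : ((2 : ℝ) ^ Nat.log 2 (Nat.log 2 n)) ≤ (Nat.log 2 n : ℝ) := by exact_mod_cast h1
    rw [TT, pow_succ]
    linarith
  have h8 : (0 : ℝ) ≤ (2 : ℝ) ^ TT n := by positivity
  calc ((4 : ℕ) ^ TT n : ℝ) = ((2 : ℝ) ^ TT n) ^ 2 := by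
        rw [← pow_mul, mul_comm, pow_mul]; norm_num
    _ ≤ (4 * Real.log n) ^ 2 := pow_le_pow_left₀ h8 h7 2
    _ = 16 * Real.log n ^ 2 := by ring

lemma ell_spec (ε : ℝ) (hε : 0 < ε) (hε1 : ε ≤ 1) (m n : ℕ) (hn : 1 ≤ n) :
    2 * (n : ℝ) ^ m * (1 - ε / 2) ^ ell ε m n ≤ 1 := by
  have hn' : (0 : ℝ) < n := by exact_mod_cast hn
  have h1 : 2 / ε * (m * Real.log n + 1) ≤ ell ε m n := Nat.le_ceil _
  have h2 : m * Real.log n + 1 ≤ ε / 2 * ell ε m n := by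
    calc (m : ℝ) * Real.log n + 1 = ε / 2 * (2 / ε * (m * Real.log n + 1)) := by field_simp
      _ ≤ _ := by gcongr
  have h3 : (1 - ε / 2) ^ ell ε m n ≤ Real.exp (-(ε / 2 * ell ε m n)) := by
    have h4 : 1 - ε / 2 ≤ Real.exp (-(ε / 2)) := by
      have := Real.add_one_le_exp (-(ε / 2))
      linarith
    calc (1 - ε / 2) ^ ell ε m n ≤ Real.exp (-(ε / 2)) ^ ell ε m n :=
          pow_le_pow_left₀ (by linarith) h4 _
      _ = _ := by rw [← Real.exp_nat_mul]; congr 1; ring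
  have h5 : (n : ℝ) ^ m = Real.exp (m * Real.log n) := by
    rw [Real.exp_nat_mul, Real.exp_log hn']
  have h6 : (2 : ℝ) ≤ Real.exp 1 := by
    have := Real.exp_one_gt_d9
    linarith
  calc 2 * (n : ℝ) ^ m * (1 - ε / 2) ^ ell ε m n
      ≤ 2 * Real.exp (m * Real.log n) * Real.exp (-(m * Real.log n + 1)) := by
        rw [h5]
        have : Real.exp (-(ε / 2 * ell ε m n)) ≤ Real.exp (-(m * Real.log n + 1)) :=
          Real.exp_le_exp.mpr (by linarith)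
        have h7 := h3.trans this
        gcongr
    _ = 2 / Real.exp 1 := by
        rw [mul_assoc, ← Real.exp_add, div_eq_mul_inv, ← Real.exp_neg]
        congr 2
        ring
    _ ≤ 1 := by
        rw [div_le_one (by positivity)]
        exact h6

/-- numerical facts for large `n` -/
theorem LEN (δ ε : ℝ) (hδ : 0 < δ) (hδ1 : δ ≤ 1 / 4) (hε : 0 < ε) (J : ℕ) :
    ∀ᶠ n : ℕ in atTop,
      3 ≤ mm δ n / 12 ∧ 24 * (mm δ n / 12) ≤ n ∧ 1000 * (mm δ n / 12) ≤ n ∧ mm δ n + 2 ≤ n ∧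
      (((n / (mm δ n / 12 / 3) + 12 * (mm δ n / 12 / 3)) *
        (4 * (4 ^ TT n * (n * (1 + J) + 2 * ell ε (mm δ n) n)) + 6 * ell ε (mm δ n) n) : ℕ) : ℝ) ≤
        (n : ℝ) ^ (5 / 3 + 4 * δ) := by
  have hC : (0 : ℝ) < 64 * (J + 3) + 6 := by positivity
  filter_upwards [A1 δ hδ, ev_const (1 / 3 - δ) 1000 (by linarith),
    ev_le (1 / 3) 1 1000 (by norm_num), ev_log (1 / 3) 1 (2 / ε * 2) (by norm_num),
    ev_const 1 (2 / ε * 2 + 2) (by norm_num),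
    ev_log 0 (δ / 2) (64 * (J + 3) + 6) (by linarith), ev_const (2 * δ) 145 (by linarith),
    ev_loggt 1, eventually_ge_atTop 2] with n h1 h2 h3 h4 h5 h6 h7 h8 hn2
  have hn : (0 : ℝ) < n := by exact_mod_cast (by omega : 0 < n)
  have hn1 : (1 : ℝ) ≤ n := by exact_mod_cast (by omega : 1 ≤ n)
  set m := mm δ n with hm
  have hmle : (m : ℝ) ≤ (n : ℝ) ^ (1 / 3 - δ) := mm_le δ n
  have hm3 : (n : ℝ) ^ (1 / 3 - δ) ≤ (n : ℝ) ^ (1 / 3 : ℝ) :=
    Real.rpow_le_rpow_of_exponent_le hn1 (by linarith)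
  have hmlt : (n : ℝ) ^ (1 / 3 - δ) < (m : ℝ) + 1 := Nat.lt_floor_add_one _
  have hm999 : (999 : ℝ) < m := by linarith
  have hm999' : 999 < m := by exact_mod_cast hm999
  rw [Real.rpow_one] at h3 h4 h5
  have hn13 : (1000 : ℝ) * m ≤ n := by
    have : (1000 : ℝ) * m ≤ 1000 * (n : ℝ) ^ (1 / 3 : ℝ) := by linarith
    linarith
  have hn13' : 1000 * m ≤ n := by exact_mod_cast hn13
  refine ⟨by omega, by omega, by omega, by omega, ?_⟩
  set d := m / 12 / 3 with hd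
  have hd1 : m ≤ 72 * d := by omega
  have hd2 : 12 * d ≤ m := by omega
  have hd0 : 1 ≤ d := by omega
  set ℓ := ell ε m n with hℓ
  -- ℓ ≤ n
  have hℓn : (ℓ : ℝ) ≤ n := by
    have h9 : (0 : ℝ) ≤ 2 / ε * (m * Real.log n + 1) := by
      have := Real.log_natCast_nonneg n
      positivity
    have h10 : (ℓ : ℝ) < 2 / ε * (m * Real.log n + 1) + 1 := Nat.ceil_lt_add_one h9
    have h11 : 2 / ε * (m * Real.log n) ≤ n / 2 := by
      have : (m : ℝ) * Real.log n ≤ (n : ℝ) ^ (1 / 3 : ℝ) * Real.log n := by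
        have h12 := hmle.trans hm3
        gcongr
      calc 2 / ε * (m * Real.log n) ≤ 2 / ε * ((n : ℝ) ^ (1 / 3 : ℝ) * Real.log n) := by gcongr
        _ = (2 / ε * 2 * (n : ℝ) ^ (1 / 3 : ℝ) * Real.log n) / 2 := by ring
        _ ≤ n / 2 := by gcongr
    have h12 : 2 / ε + 1 ≤ n / 2 := by linarith
    have h13 : 2 / ε * (m * Real.log n + 1) + 1 = 2 / ε * (m * Real.log n) + (2 / ε + 1) := by
      ring
    linarith
  -- first factor
  have hfac1 : ((n / d + 12 * d : ℕ) : ℝ) ≤ 145 * (n : ℝ) ^ (2 / 3 + δ) := by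
    have hp : (0 : ℝ) < (n : ℝ) ^ (1 / 3 - δ) := Real.rpow_pos_of_pos hn _
    have e1 : ((n / d : ℕ) : ℝ) ≤ (n : ℝ) / d := Nat.cast_div_le
    have hd' : (0 : ℝ) < d := by exact_mod_cast hd0
    have e2 : (n : ℝ) / d ≤ 144 * (n : ℝ) ^ (2 / 3 + δ) := by
      rw [div_le_iff₀ hd']
      have e3 : (n : ℝ) ^ (1 / 3 - δ) ≤ 144 * d := by
        have : (m : ℝ) ≤ 72 * d := by exact_mod_cast hd1
        linarith
      calc (n : ℝ) = (n : ℝ) ^ (2 / 3 + δ) * (n : ℝ) ^ (1 / 3 - δ) := by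
            rw [← Real.rpow_add hn]
            conv_lhs => rw [← Real.rpow_one (n : ℝ)]
            congr 1; ring
        _ ≤ (n : ℝ) ^ (2 / 3 + δ) * (144 * d) := by gcongr
        _ = 144 * (n : ℝ) ^ (2 / 3 + δ) * d := by ring
    have e4 : (12 : ℝ) * d ≤ (n : ℝ) ^ (2 / 3 + δ) := by
      have e5 : (12 : ℝ) * d ≤ m := by exact_mod_cast hd2
      have e6 : (n : ℝ) ^ (1 / 3 - δ) ≤ (n : ℝ) ^ (2 / 3 + δ) :=
        Real.rpow_le_rpow_of_exponent_le hn1 (by linarith)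
      linarith
    push_cast
    linarith
  -- second factor
  have hfac2 : ((4 * (4 ^ TT n * (n * (1 + J) + 2 * ℓ)) + 6 * ℓ : ℕ) : ℝ) ≤
      (n : ℝ) ^ (1 + δ) := by
    have f1 := four_TT n hn2
    have hlog : 1 ≤ Real.log n := h8
    have hlog2 : 1 ≤ Real.log n ^ 2 := one_le_pow₀ hlog
    have f2 : ((4 * (4 ^ TT n * (n * (1 + J) + 2 * ℓ)) + 6 * ℓ : ℕ) : ℝ) ≤
        (64 * (J + 3) + 6) * Real.log n ^ 2 * n := by
      push_cast
      push_cast at f1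
      have f3 : (4 : ℝ) ^ TT n * (n * (1 + J) + 2 * ℓ) ≤
          16 * Real.log n ^ 2 * (n * (1 + J) + 2 * n) := by
        gcongr
      have f4 : 6 * (ℓ : ℝ) ≤ 6 * (Real.log n ^ 2 * n) := by
        have : (n : ℝ) ≤ Real.log n ^ 2 * n := by nlinarith
        linarith
      calc 4 * ((4 : ℝ) ^ TT n * (n * (1 + J) + 2 * ℓ)) + 6 * ℓ
          ≤ 4 * (16 * Real.log n ^ 2 * (n * (1 + J) + 2 * n)) + 6 * (Real.log n ^ 2 * n) := by
            linarith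
        _ = (64 * (J + 3) + 6) * Real.log n ^ 2 * n := by ring
    have f5 : (64 * (J + 3) + 6 : ℝ) * Real.log n ^ 2 ≤ (n : ℝ) ^ δ := by
      have f6 : (64 * (J + 3) + 6 : ℝ) * Real.log n ≤ (n : ℝ) ^ (δ / 2) := by
        simpa using h6
      have f7 : (0 : ℝ) ≤ (64 * (J + 3) + 6 : ℝ) * Real.log n := by positivity
      calc (64 * (J + 3) + 6 : ℝ) * Real.log n ^ 2
          ≤ ((64 * (J + 3) + 6 : ℝ) * Real.log n) ^ 2 := by
            have : (1 : ℝ) ≤ 64 * (J + 3) + 6 := by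
              have : (0 : ℝ) ≤ J := Nat.cast_nonneg J
              linarith
            rw [mul_pow]
            have g1 : (64 * (J + 3) + 6 : ℝ) ≤ (64 * (J + 3) + 6) ^ 2 := by nlinarith
            gcongr
        _ ≤ ((n : ℝ) ^ (δ / 2)) ^ 2 := pow_le_pow_left₀ f7 f6 2
        _ = (n : ℝ) ^ δ := by
            rw [← Real.rpow_natCast, ← Real.rpow_mul hn.le]
            congr 1; push_cast; ring
    calc ((4 * (4 ^ TT n * (n * (1 + J) + 2 * ℓ)) + 6 * ℓ : ℕ) : ℝ)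
        ≤ (64 * (J + 3) + 6) * Real.log n ^ 2 * n := f2
      _ ≤ (n : ℝ) ^ δ * n := by gcongr
      _ = (n : ℝ) ^ (1 + δ) := by
          rw [Real.rpow_add hn, Real.rpow_one]; ring
  rw [Nat.cast_mul]
  calc ((n / d + 12 * d : ℕ) : ℝ) * ((4 * (4 ^ TT n * (n * (1 + J) + 2 * ℓ)) + 6 * ℓ : ℕ) : ℝ)
      ≤ (145 * (n : ℝ) ^ (2 / 3 + δ)) * (n : ℝ) ^ (1 + δ) := by gcongr
    _ ≤ ((n : ℝ) ^ (2 * δ) * (n : ℝ) ^ (2 / 3 + δ)) * (n : ℝ) ^ (1 + δ) := by gcongr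
    _ = (n : ℝ) ^ (5 / 3 + 4 * δ) := by
        rw [← Real.rpow_add hn, ← Real.rpow_add hn]
        congr 1; ring

end

end RD
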