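import Pool.Agent.H513R2.RD.Det
import Pool.Agent.H513R2.RD.Comb
import Pool.Agent.H513R2.RD.Len
import Pool.Agent.H513R2.RD.S.MIX
import Pool.Agent.H513R2.RD.S.COV
import Pool.Agent.H513R2.RD.S.LONG

namespace RD
open Finset RC14 Filter Topology

noncomputable section

/-- the deterministic part for large `n` -/
theorem DIAM (δ : ℝ) (hδ : 0 < δ) (hδ1 : δ ≤ 1 / 4) (k0 : ℕ) (hk0 : 1 ≤ k0) (c : ℝ) (hc : 0 < c)
    (hc1 : c ≤ 1) (J : ℕ) : ∀ᶠ n : ℕ in atTop, ∀ (k : ℕ) (ι : Fin k0 → Fin k) (a b : Fin k)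
      (x : Fin k → Alt n), Good1 n (mm δ n) c (x ∘ ι) →
      (∃ j < J, ∃ e, 1 ≤ e ∧ e ≤ n ∧ n ≤ 1000 * sz ((x a * x b ^ j) ^ e) ∧
        192 * sz ((x a * x b ^ j) ^ e) ≤ n) →
      ∀ g : Alt n, ∃ L : ℕ, (L : ℝ) ≤ (n : ℝ) ^ (5 / 3 + 4 * δ) ∧ WL x L g := by
  have hk : (1 : ℝ) ≤ k0 := by exact_mod_cast hk0
  set ε : ℝ := c / (2 * k0) with hε
  have hε0 : 0 < ε := by positivity
  have hε1 : ε ≤ 1 := by
    rw [hε, div_le_one (by positivity)]
    linarith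
  filter_upwards [LEN δ ε hδ hδ1 hε0 J, eventually_ge_atTop 2] with n h1 hn2 k ι a b x hG hj g
  obtain ⟨hc3, h24, h1000, hm2, hlen⟩ := h1
  obtain ⟨j, hj, e, he1, hen, hs1, hs2⟩ := hj
  have hgap : Sgap n (mm δ n) ε (x ∘ ι) := fun r hr f h0 =>
    FRSCH n (mm δ n) k0 hm2 hk0 (x ∘ ι) c hG r hr f h0
  have hM : Mixed x (mm δ n) (ell ε (mm δ n) n) :=
    Mixed_comp ι (MIX n k0 (mm δ n) _ (by omega) hk0 (x ∘ ι) ε hε0 hε1 hgap
      (ell_spec ε hε0 hε1 (mm δ n) n (by omega)))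
  have hw : WL x (n * (1 + J)) ((x a * x b ^ j) ^ e) := by
    have h2 : WL x (1 + j * 1) (x a * x b ^ j) := (WL.gen a).mul ((WL.gen b).pow j)
    refine (h2.pow e).mono ?_
    have h3 : 1 + j * 1 ≤ 1 + J := by omega
    exact Nat.mul_le_mul hen h3
  refine ⟨_, hlen, ?_⟩
  exact DET n k (mm δ n) (ell ε (mm δ n) n) (mm δ n / 12) (n * (1 + J)) (TT n) x hM _ hw
    hc3 (by omega) h24 (by omega) hs2 (TT_spec n) g

/-- the probabilistic part -/
theorem PROB (δ : ℝ) (hδ : 0 < δ) (hδ1 : δ ≤ 1 / 4) (q : ℕ) (hq : 16 / δ ≤ q) (hq1 : 1 ≤ q)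
    (k : ℕ) (hk : 8 + q + 2 ≤ k) (J : ℕ) (hJ : 1 ≤ J) : ∀ᶠ n : ℕ in atTop,
      (Nat.card {x : Fin k → Alt n // ¬ ∀ g : Alt n, ∃ L : ℕ,
        (L : ℝ) ≤ (n : ℝ) ^ (5 / 3 + 4 * δ) ∧ WL x L g} : ℝ) ≤
      (2 / (n : ℝ) + 2 * 10 ^ 7 / J) * (Fintype.card (Alt n) : ℝ) ^ k := by
  have hqpos : (0 : ℝ) < q := by exact_mod_cast hq1
  have hq' : (1 : ℝ) ≤ q := by exact_mod_cast hq1
  have hJ' : (0 : ℝ) < J := by exact_mod_cast hJ
  set c : ℝ := 1 / (16 * (q : ℝ) ^ 2) with hc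
  have hc0 : 0 < c := by positivity
  have hc1 : c ≤ 1 := by
    rw [hc, div_le_one (by positivity)]
    nlinarith
  let ι : Fin (8 + q) → Fin k := Fin.castLE (by omega)
  have hι : Function.Injective ι := Fin.castLE_injective _
  let a : Fin k := ⟨8 + q, by omega⟩
  let b : Fin k := ⟨8 + q + 1, by omega⟩
  let κ : Bool → Fin k := fun t => if t then a else b
  have hκ : Function.Injective κ := by
    intro s t hst
    cases s <;> cases t <;> simp_all [κ, a, b]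
  filter_upwards [R1core δ hδ hδ1 q hq hq1, DIAM δ hδ hδ1 (8 + q) (by omega) c hc0 hc1 J,
    COV J hJ, LONG, eventually_ge_atTop 2] with n hR hD hC hL hn2
  classical
  have hn : (0 : ℝ) < n := by exact_mod_cast (by omega : 0 < n)
  set A : ℝ := (Fintype.card (Alt n) : ℝ) with hA
  have hA0 : 0 < A := by rw [hA]; exact_mod_cast Fintype.card_pos
  -- the event
  let E : Alt n → Prop := fun g => ∃ e, 1 ≤ e ∧ e ≤ n ∧ n ≤ 1000 * sz (g ^ e) ∧
      192 * sz (g ^ e) ≤ n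
  have hE : (1 / 10 ^ 7 : ℝ) * A ≤ Nat.card {g : Alt n // E g} := by
    rw [one_div, inv_mul_le_iff₀ (by norm_num)]
    exact hL
  have hC' := hC E (1 / 10 ^ 7) (by norm_num) hE
  -- bad events
  let B1 : (Fin (8 + q) → Alt n) → Prop := fun y => ¬ Good1 n (mm δ n) c y
  let B2 : (Bool → Alt n) → Prop := fun z => ∀ j < J, ¬ E (z true * z false ^ j)
  have hB1 : (Nat.card {x : Fin k → Alt n // B1 (x ∘ ι)} : ℝ) ≤ 2 / (n : ℝ) * A ^ k := by
    have h1 := card_comp (A := Alt n) ι hι B1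
    rw [Fintype.card_fin, Fintype.card_fin] at h1
    have h2 : (Nat.card {x : Fin k → Alt n // B1 (x ∘ ι)} : ℝ) * A ^ (8 + q) =
        Nat.card {z : Fin (8 + q) → Alt n // B1 z} * A ^ k := by
      rw [hA]; exact_mod_cast h1
    have h3 : (Nat.card {x : Fin k → Alt n // B1 (x ∘ ι)} : ℝ) * A ^ (8 + q) ≤
        (2 / (n : ℝ) * A ^ k) * A ^ (8 + q) := by
      rw [h2]
      calc (Nat.card {z : Fin (8 + q) → Alt n // B1 z} : ℝ) * A ^ k
          ≤ (2 / (n : ℝ) * A ^ (8 + q)) * A ^ k := by gcongr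
        _ = _ := by ring
    exact le_of_mul_le_mul_right h3 (by positivity)
  have hB2 : (Nat.card {x : Fin k → Alt n // B2 (x ∘ κ)} : ℝ) ≤ 2 * 10 ^ 7 / J * A ^ k := by
    have h1 := card_comp (A := Alt n) κ hκ B2
    rw [Fintype.card_bool, Fintype.card_fin] at h1
    have h2 : (Nat.card {x : Fin k → Alt n // B2 (x ∘ κ)} : ℝ) * A ^ 2 =
        Nat.card {z : Bool → Alt n // B2 z} * A ^ k := by
      rw [hA]; exact_mod_cast h1
    have h4 : Nat.card {z : Bool → Alt n // B2 z} =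
        Nat.card {z : Alt n × Alt n // ∀ j < J, ¬ E (z.1 * z.2 ^ j)} := by
      apply Nat.card_congr
      refine (Equiv.boolArrowEquivProd (Alt n)).subtypeEquiv ?_ |>.trans
        ((Equiv.prodComm _ _).subtypeEquiv (p := fun w : Alt n × Alt n =>
          ∀ j < J, ¬ E (w.2 * w.1 ^ j)) ?_)
      · intro z; rfl
      · intro z; rfl
    rw [h4] at h2
    have h3 : (Nat.card {x : Fin k → Alt n // B2 (x ∘ κ)} : ℝ) * A ^ 2 ≤
        (2 * 10 ^ 7 / J * A ^ k) * A ^ 2 := by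
      rw [h2]
      calc (Nat.card {z : Alt n × Alt n // ∀ j < J, ¬ E (z.1 * z.2 ^ j)} : ℝ) * A ^ k
          ≤ (2 / (1 / 10 ^ 7 * J) * A ^ 2) * A ^ k := by gcongr
        _ = _ := by field_simp
    exact le_of_mul_le_mul_right h3 (by positivity)
  have hsub : ∀ x : Fin k → Alt n, (¬ ∀ g : Alt n, ∃ L : ℕ,
        (L : ℝ) ≤ (n : ℝ) ^ (5 / 3 + 4 * δ) ∧ WL x L g) → (B1 (x ∘ ι) ∨ B2 (x ∘ κ)) := by
    intro x hx
    by_contra hcon
    rw [not_or] at hcon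
    obtain ⟨g1, g2⟩ := hcon
    apply hx
    have g1' : Good1 n (mm δ n) c (x ∘ ι) := not_not.mp g1
    have g2' : ∃ j < J, E (x a * x b ^ j) := by
      simp only [B2, not_forall, not_not] at g2
      obtain ⟨j, hj, h⟩ := g2
      exact ⟨j, hj, h⟩
    obtain ⟨j, hj, h⟩ := g2'
    exact hD k ι a b x g1' ⟨j, hj, h⟩
  have hfin : Nat.card {x : Fin k → Alt n // ¬ ∀ g : Alt n, ∃ L : ℕ,
        (L : ℝ) ≤ (n : ℝ) ^ (5 / 3 + 4 * δ) ∧ WL x L g} ≤
      Nat.card {x : Fin k → Alt n // B1 (x ∘ ι)} + Nat.card {x : Fin k → Alt n // B2 (x ∘ κ)} := by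
    rw [Nat.card_eq_fintype_card, Nat.card_eq_fintype_card, Nat.card_eq_fintype_card,
      Fintype.card_subtype, Fintype.card_subtype, Fintype.card_subtype]
    refine (card_le_card ?_).trans (card_union_le _ _)
    intro x hx
    rw [mem_union, mem_filter, mem_filter]
    rw [mem_filter] at hx
    rcases hsub x hx.2 with h | h
    · exact Or.inl ⟨mem_univ _, h⟩
    · exact Or.inr ⟨mem_univ _, h⟩
  calc (Nat.card {x : Fin k → Alt n // ¬ ∀ g : Alt n, ∃ L : ℕ,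
        (L : ℝ) ≤ (n : ℝ) ^ (5 / 3 + 4 * δ) ∧ WL x L g} : ℝ)
      ≤ (Nat.card {x : Fin k → Alt n // B1 (x ∘ ι)} : ℝ) +
        Nat.card {x : Fin k → Alt n // B2 (x ∘ κ)} := by exact_mod_cast hfin
    _ ≤ 2 / (n : ℝ) * A ^ k + 2 * 10 ^ 7 / J * A ^ k := add_le_add hB1 hB2
    _ = _ := by ring

end

end RD
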