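import Pool.Agent.H513R2.RD.Defs

/-!
Two small combinatorial facts for the project RD.
-/

namespace RD
open Finset RC14

/-- independent sets inside the support -/
theorem IND {n : ℕ} (g : Equiv.Perm (Fin n)) (c : ℕ) (h : 3 * c ≤ g.support.card) :
    ∃ P : Finset (Fin n), P ⊆ g.support ∧ P.card = c ∧ ∀ p ∈ P, g p ∉ P := by
  induction c with
  | zero => exact ⟨∅, by simp, by simp, by simp⟩
  | succ c ih =>
    obtain ⟨P, hP, hc, hi⟩ := ih (by omega)
    have hcard : (P ∪ P.image g ∪ P.image g.symm).card < g.support.card := by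
      have h1 := card_union_le (P ∪ P.image g) (P.image g.symm)
      have h2 := card_union_le P (P.image g)
      have h3 := card_image_le (s := P) (f := g)
      have h4 := card_image_le (s := P) (f := g.symm)
      omega
    obtain ⟨p, hp, hpn⟩ := exists_mem_notMem_of_card_lt_card hcard
    simp only [mem_union, mem_image, not_or, not_exists, not_and] at hpn
    obtain ⟨⟨hp1, hp2⟩, hp3⟩ := hpn
    refine ⟨insert p P, ?_, ?_, ?_⟩
    · intro q hq
      rcases mem_insert.mp hq with rfl | hq
      · exact hp
      · exact hP hq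
    · rw [card_insert_of_notMem hp1, hc]
    · intro q hq
      rcases mem_insert.mp hq with rfl | hq
      · intro hgq
        rcases mem_insert.mp hgq with h' | h'
        · exact (Equiv.Perm.mem_support.mp hp) h'
        · exact hp3 (g q) h' (by simp)
      · intro hgq
        rcases mem_insert.mp hgq with h' | h'
        · exact hp2 q hq h'
        · exact hi q hq h'

/-- the support of a commutator `g⁻¹ x⁻¹ g x` -/
theorem cmt_support {n : ℕ} (g x : Equiv.Perm (Fin n)) (v : Fin n)
    (h : (g⁻¹ * x⁻¹ * g * x) v ≠ v) :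
    (g v ≠ v ∧ x v ≠ v) ∨ (g (g v) ≠ g v ∧ x (g v) ≠ g v) ∨
      (g (x v) ≠ x v ∧ x (x v) ≠ x v) := by
  by_contra hcon
  push Not at hcon
  obtain ⟨h1, h2, h3⟩ := hcon
  apply h
  simp only [Equiv.Perm.mul_apply]
  rw [Equiv.Perm.inv_eq_iff_eq, Equiv.Perm.inv_eq_iff_eq]
  by_cases hx : x v = v
  · rw [hx]
    by_cases hg : g v = v
    · rw [hg, hx]
    · exact (h2 (fun h' => hg (g.injective h'))).symm
  · by_cases hg : g v = v
    · rw [hg]
      by_contra h'
      exact hx (x.injective (h3 h'))
    · exact absurd (h1 hg) hx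

end RD
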