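import Pool.Agent.H14R2.RC.Defs

/-!
Definitions for the project RD (diameter of random Cayley graphs of alternating groups),
MP_75608d_al.
-/

namespace RD
open Finset RC14

noncomputable section

/-- value of a word in the letters `x_i` (`true`) and `x_i⁻¹` (`false`) -/
def ev {G : Type*} [Group G] {k : ℕ} (x : Fin k → G) (w : List (Fin k × Bool)) : G :=
  (w.map fun p => if p.2 then x p.1 else (x p.1)⁻¹).prod

/-- `g` is a product of at most `L` elements of `{x_i, x_i⁻¹}` -/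
def WL {G : Type*} [Group G] {k : ℕ} (x : Fin k → G) (L : ℕ) (g : G) : Prop :=
  ∃ w : List (Fin k × Bool), w.length ≤ L ∧ ev x w = g

section
variable {G : Type*} [Group G] {k : ℕ} {x : Fin k → G}

lemma ev_append (w w' : List (Fin k × Bool)) : ev x (w ++ w') = ev x w * ev x w' := by
  simp [ev]

lemma WL.mono {L L' : ℕ} {g : G} (h : WL x L g) (hL : L ≤ L') : WL x L' g := by
  obtain ⟨w, hw, e⟩ := h
  exact ⟨w, hw.trans hL, e⟩

lemma WL.one (L : ℕ) : WL x L 1 := ⟨[], by simp, by simp [ev]⟩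

lemma WL.gen (i : Fin k) : WL x 1 (x i) := ⟨[(i, true)], by simp, by simp [ev]⟩

lemma WL.mul {L L' : ℕ} {g g' : G} (h : WL x L g) (h' : WL x L' g') : WL x (L + L') (g * g') := by
  obtain ⟨w, hw, e⟩ := h
  obtain ⟨w', hw', e'⟩ := h'
  refine ⟨w ++ w', ?_, ?_⟩
  · rw [List.length_append]; omega
  · rw [ev_append, e, e']

lemma WL.inv {L : ℕ} {g : G} (h : WL x L g) : WL x L g⁻¹ := by
  obtain ⟨w, hw, e⟩ := h
  refine ⟨(w.map fun p => (p.1, !p.2)).reverse, by simpa using hw, ?_⟩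
  rw [← e]
  clear hw e
  induction w with
  | nil => simp [ev]
  | cons p w ih =>
    rw [List.map_cons, List.reverse_cons, ev_append, ih]
    rcases p with ⟨i, b⟩
    cases b <;> simp [ev]

lemma WL.pow {L : ℕ} {g : G} (h : WL x L g) (e : ℕ) : WL x (e * L) (g ^ e) := by
  induction e with
  | zero => simpa using WL.one (x := x) 0
  | succ e ih =>
    rw [pow_succ, Nat.succ_mul]
    exact ih.mul h

lemma WL.conj {L ℓ : ℕ} {g h : G} (hg : WL x L g) (hh : WL x ℓ h) :
    WL x (L + 2 * ℓ) (h * g * h⁻¹) :=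
  ((hh.mul hg).mul hh.inv).mono (by omega)

/-- the commutator of `g` and its conjugate by `h` -/
def cmt (g h : G) : G := g⁻¹ * (h * g * h⁻¹)⁻¹ * g * (h * g * h⁻¹)

lemma WL.cmt {L ℓ : ℕ} {g h : G} (hg : WL x L g) (hh : WL x ℓ h) :
    WL x (4 * L + 4 * ℓ) (cmt g h) :=
  (((hg.inv.mul (hg.conj hh).inv).mul hg).mul (hg.conj hh)).mono (by omega)

lemma WL.prod {L : ℕ} (l : List G) (h : ∀ y ∈ l, WL x L y) : WL x (l.length * L) l.prod := by
  induction l with
  | nil => simpa using WL.one (x := x) 0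
  | cons y l ih =>
    rw [List.prod_cons, List.length_cons, Nat.succ_mul, add_comm]
    exact (h y (by simp)).mul (ih fun z hz => h z (by simp [hz]))
end

/-- number of points moved by `g` -/
def sz {n : ℕ} (g : Alt n) : ℕ := (g : Equiv.Perm (Fin n)).support.card

/-- spectral gap `ε` of the Schreier graphs on `r`-tuples of distinct points for all `r ≤ m` -/
def Sgap (n m : ℕ) {k : ℕ} (ε : ℝ) (x : Fin k → Alt n) : Prop :=
  ∀ r ≤ m, ∀ f : Tup r n → ℝ, ∑ a, f a = 0 →
    ∑ a, f a * ((∑ i, (f (mv (x i : Equiv.Perm (Fin n)) a) +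
      f (mv (x i : Equiv.Perm (Fin n))⁻¹ a))) / (2 * k)) ≤ (1 - ε) * ∑ a, f a ^ 2

/-- there is a finite family `h` of group elements of word length at most `ℓ` which moves every
`r`-tuple (`r ≤ m`) to every other with the right probability, up to a factor `2` -/
def Mixed {n k : ℕ} (x : Fin k → Alt n) (m ℓ : ℕ) : Prop :=
  ∃ (N : ℕ) (h : Fin N → Alt n), 0 < N ∧ (∀ i, WL x ℓ (h i)) ∧
    ∀ r ≤ m, ∀ a b : Tup r n,
      (N : ℝ) ≤ 2 * Fintype.card (Tup r n) * #{i | mv (h i : Equiv.Perm (Fin n)) a = b} ∧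
      (Fintype.card (Tup r n) : ℝ) * #{i | mv (h i : Equiv.Perm (Fin n)) a = b} ≤ 2 * N

end

end RD
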