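import Pool.Agent.H513R2.RD.S.ITER
import Pool.Agent.H513R2.RD.S.TRI
import Pool.Agent.H513R2.RD.S.CJ
import Pool.Agent.H513R2.RD.S.RED

namespace RD
open Finset RC14

/-- the deterministic part: from one short word of small support to all of `A_n` -/
theorem DET (n k m ℓ c L T : ℕ) (x : Fin k → Alt n) (hM : Mixed x m ℓ) (g : Alt n)
    (hg : WL x L g) (hc : 3 ≤ c) (hcm : 12 * c ≤ m) (hcn : 24 * c ≤ n) (h1 : c ≤ sz g)
    (h2 : 192 * sz g ≤ n) (hT : n < 2 ^ (2 ^ T)) (y : Alt n) :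
    WL x ((n / (c / 3) + 12 * (c / 3)) * (4 * (4 ^ T * (L + 2 * ℓ)) + 6 * ℓ)) y := by
  obtain ⟨g', hw, h3, h4⟩ := ITER n k m ℓ c L T x hM g hg (by omega) (by omega) h1 h2 hT
  obtain ⟨y0, hy0, hty⟩ := TRI n k m ℓ (c / 3) _ x hM g' hw (by omega) (by omega) (by omega)
    (by omega)
  have hsz : sz y0 ≤ m := by
    have : sz y0 = (y0 : Equiv.Perm (Fin n)).cycleType.sum := (Equiv.Perm.sum_cycleType _).symm
    rw [this, hty, Multiset.sum_replicate, smul_eq_mul]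
    omega
  obtain ⟨l, hl, hlt, rfl⟩ := RED n (c / 3) (by omega) (by omega) y
  refine (WL.prod (L := 4 * (4 ^ T * (L + 2 * ℓ)) + 6 * ℓ) l ?_).mono
    (Nat.mul_le_mul_right _ hl)
  intro z hz
  have := CJ n k m ℓ _ x hM y0 z hy0 hsz (hty.trans (hlt z hz).symm)
  exact this.mono (by omega)

end RD
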