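import Pool.Agent.H513R2.RD.S.MIXA
import Pool.Agent.H513R2.RD.S.MIX
import Pool.Agent.H513R2.RD.S.STEP
import Pool.Agent.H513R2.RD.S.TRI
import Pool.Agent.H513R2.RD.S.CJ
import Pool.Agent.H513R2.RD.S.RED
import Pool.Agent.H513R2.RD.S.LCYC
import Pool.Agent.H513R2.RD.S.LONG
import Pool.Agent.H513R2.RD.S.FIXPOW
import Pool.Agent.H513R2.RD.S.CHARALL
import Pool.Agent.H513R2.RD.S.COVA
import Pool.Agent.H513R2.RD.S.COV
import Pool.Agent.H513R2.RD.S.ITER
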